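import Pool.Agent.Q56.WL.Wit

/-!
# Small witnesses for the strong test, for ALL numbers divisible by two primes near powers with non-integral exponents

Take finitely many real points `β l + w l * i (μ l) ^ e l`, where `i = (i_1, ..., i_m)` runs through `{1, ..., x} ^ m`, the
exponents `e l > 1` are not integers, and points which depend on the same index have different exponents (for instance one
index and the points `i ^ (3/2)`, `i ^ (5/2)`, or the single point `α i ^ e`). For almost all index vectors ALL integers `n`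
divisible by two different odd primes which lie in the windows around the points have a prime witness `b ≤ log x`; as
`log x ≤ log n < 2 (log n) ^ 2` for `n ≥ x`, this is much smaller than the bound of the question. In fact almost half of the
primes up to `z` are witnesses, with square-root error, for all `z` from `y` to `x ^ c`, if a proportion `1 / y ^ A` of the
index vectors is excepted.

Proof. If `p`, `q` are odd primes which divide `n`, then one of the three conditions `(b / p) = -1`, `(b / q) = -1`,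
`(b / p q) = -1` implies that `b` is a witness for `n`. By the reciprocity law these are the symbols of `± p`, `± q`, `± p q`
modulo `b`. The sums over the primes `b ≤ z` of these symbols are small for almost all index vectors: high moments over all
integer points of the windows are compared with complete systems of residues (`Pool.Agent.Q56.WL.gen`; the exponential sums over
the real points are estimated by van der Corput's method). For two primes `q = p + h` in the same window all shifts `h` are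
treated at the same time.
-/

set_option autoImplicit false

namespace Pool.Agent.Results.MP_0b15c0_nt.NearPowers

open Finset Filter Pool.Agent.Q56.WL

/-- `n` fails the strong test for the base `b`: writing `n - 1 = 2 ^ j * d` with `d` odd, neither
`b ^ d = 1` nor `b ^ (2 ^ i * d) = -1` for some `i < j`, modulo `n`. -/
def IsWitness (n b : ℕ) : Prop :=
  ∀ j d : ℕ, n - 1 = 2 ^ j * d → Odd d →
    (b : ZMod n) ^ d ≠ 1 ∧ ∀ i : ℕ, i < j → (b : ZMod n) ^ (2 ^ i * d) ≠ -1

open Classical in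
/-- The number of the primes `b ≤ z` which are witnesses for `n`. -/
noncomputable def primeWitnesses (z n : ℕ) : ℕ := ((Icc 1 z).filter (fun b => b.Prime ∧ IsWitness n b)).card

/-- The integer `n` is divisible by two different odd primes each of which is within `W` of one of the points
`β l + w l * i (μ l) ^ e l`. -/
def TwoPrimes {L : Type} {m : ℕ} (e w β : L → ℝ) (μ : L → Fin m) (i : Fin m → ℕ) (W : ℝ) (n : ℕ) : Prop :=
  ∃ p q : ℕ, p.Prime ∧ q.Prime ∧ p ≠ 2 ∧ q ≠ 2 ∧ p ≠ q ∧ p ∣ n ∧ q ∣ n ∧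
    (∃ l, |(p : ℝ) - (β l + w l * (i (μ l) : ℝ) ^ e l)| ≤ W) ∧ (∃ l, |(q : ℝ) - (β l + w l * (i (μ l) : ℝ) ^ e l)| ≤ W)

open Classical in
/-- The number of the index vectors in `{1, ..., x} ^ m` with the property `P`. -/
noncomputable def vectors (m x : ℕ) (P : (Fin m → ℕ) → Prop) : ℕ :=
  ((Fintype.piFinset (fun _ : Fin m => Icc 1 x)).filter P).card

lemma vectors_mono {m x : ℕ} {P Q : (Fin m → ℕ) → Prop} (h : ∀ i, P i → Q i) : vectors m x P ≤ vectors m x Q := by
  classical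
  unfold vectors
  apply card_le_card
  intro i hi
  rw [mem_filter] at hi ⊢
  exact ⟨hi.1, h i hi.2⟩

lemma primeWitnesses_eq (z n : ℕ) : primeWitnesses z n = wits z n := by
  classical
  unfold primeWitnesses wits
  refine congrArg card ?_
  ext b
  simp only [mem_filter, mem_Icc, Pool.Agent.TH894.NG.mem_PX]
  constructor
  · rintro ⟨⟨h1, h2⟩, h3, h4⟩
    exact ⟨⟨h3, h2⟩, h4⟩
  · rintro ⟨⟨h3, h2⟩, h4⟩
    exact ⟨⟨h3.one_lt.le, h2⟩, h3, h4⟩

lemma count_eq (z : ℕ) : (Pool.Agent.TH894.NG.PX z).card = Nat.primeCounting z := Pool.Agent.TH869.EVF.PR_card z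

lemma many_primes : ∀ᶠ z : ℕ in atTop, (z : ℝ) ^ (1 / 2 + 1 / 10 : ℝ) < (Nat.primeCounting z : ℝ) / 2 := by
  have h1 := (isLittleO_log_rpow_atTop (show (0 : ℝ) < 1 / 5 by norm_num)).bound (show (0 : ℝ) < 1 / 100 by norm_num)
  have h2 : ∀ᶠ x : ℝ in atTop, (100 : ℝ) ≤ x ^ (1 / 5 : ℝ) := (tendsto_rpow_atTop (by norm_num)).eventually (eventually_ge_atTop _)
  filter_upwards [tendsto_natCast_atTop_atTop.eventually h1, tendsto_natCast_atTop_atTop.eventually h2, eventually_ge_atTop 3] with z hz1 hz2 hz3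
  have hz : (3 : ℝ) ≤ z := by exact_mod_cast hz3
  have hz0 : (0 : ℝ) < z := by linarith
  have hl : 1 ≤ Real.log z := by
    rw [Real.le_log_iff_exp_le hz0]
    have := Real.exp_one_lt_d9
    linarith
  rw [Real.norm_of_nonneg (by linarith), Real.norm_of_nonneg (by positivity)] at hz1
  have h3 := Chebyshev.pi_ge z
  rw [div_le_iff₀ (by linarith)] at h3
  have hl1 : Real.log (z + 1) ≤ 2 * Real.log z := by
    rw [← Real.log_rpow hz0, show (2 : ℝ) = ((2 : ℕ) : ℝ) by norm_num, Real.rpow_natCast]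
    apply Real.log_le_log (by positivity)
    nlinarith
  have hl2 : (0.6931471803 : ℝ) < Real.log 2 := Real.log_two_gt_d9
  obtain ⟨t, ht⟩ : ∃ t : ℝ, t = (z : ℝ) ^ (1 / 5 : ℝ) := ⟨_, rfl⟩
  rw [← ht] at hz1 hz2
  have e1 : (z : ℝ) = t ^ 5 := by
    rw [ht, ← Real.rpow_natCast, ← Real.rpow_mul hz0.le]
    norm_num
  have e2 : (z : ℝ) ^ (1 / 2 + 1 / 10 : ℝ) = t ^ 3 := by
    rw [ht, ← Real.rpow_natCast, ← Real.rpow_mul hz0.le]
    norm_num
  rw [e2]
  have hpi0 : (0 : ℝ) ≤ Nat.primeCounting z := Nat.cast_nonneg _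
  have h4 : t ^ 5 * (1 / 2) - t / 50 ≤ Nat.primeCounting z * (t / 100) := by
    have h5 : (Nat.primeCounting z : ℝ) * Real.log z ≤ Nat.primeCounting z * (t / 100) := mul_le_mul_of_nonneg_left (by linarith) hpi0
    have h6 : t ^ 5 * (1 / 2) ≤ z * Real.log 2 := by
      rw [← e1]
      nlinarith
    linarith
  have ht0 : 0 < t := by linarith
  have h7 : (t ^ 4 * 50 - 2) * (t / 100) ≤ Nat.primeCounting z * (t / 100) := by
    calc _ = t ^ 5 * (1 / 2) - t / 50 := by ring
      _ ≤ _ := h4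
  have h8 := le_of_mul_le_mul_right h7 (by positivity)
  have h9 : t ^ 3 * 100 ≤ t ^ 4 := by
    calc t ^ 3 * 100 ≤ t ^ 3 * t := mul_le_mul_of_nonneg_left hz2 (by positivity)
      _ = t ^ 4 := by ring
  have h10 : 1 ≤ t ^ 3 := one_le_pow₀ (by linarith)
  linarith

/-- **Small witnesses for all numbers divisible by two primes near powers.** Let the exponents `e l > 1` be non-integral, the
`w l` nonzero, and `e l ≠ e l'` for different `l`, `l'` with the same index.

(1) For all `δ > 0`, `A`, `V` there are `c > 0`, `y₀` such that for all `β`, `x` and all `y ≥ y₀`: for all index vectors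
`i ∈ {1, ..., x} ^ m` with at most `x ^ m / y ^ A` exceptions, ALL integers `n` which are divisible by two different odd
primes in the windows of length `y ^ V` around the points have, for all `z` in the range `y ≤ z ≤ x ^ c`, at least
`π(z) / 2 - z ^ (1 / 2 + δ)` prime witnesses `b ≤ z`.

(2) For all `A`, `V` and all large `x`, for all `β`, and for all index vectors in `{1, ..., x} ^ m` with at most
`x ^ m / (log x) ^ A` exceptions, ALL integers `n` which are divisible by two different odd primes in the windows of length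
`(log x) ^ V` around the points have a prime witness `b ≤ log x`. -/
theorem result {L : Type} [Fintype L] {m : ℕ} (e w : L → ℝ) (μ : L → Fin m) (he : ∀ l, 1 < e l ∧ ∀ k : ℕ, e l ≠ k)
    (hw : ∀ l, w l ≠ 0) (hdiff : ∀ l l', μ l = μ l' → e l = e l' → l = l') :
    (∀ δ : ℝ, 0 < δ → ∀ A V : ℕ, ∃ c : ℝ, 0 < c ∧ ∃ y₀ : ℕ, ∀ (β : L → ℝ) (x y : ℕ), y₀ ≤ y →
      (vectors m x (fun i => ∃ n : ℕ, TwoPrimes e w β μ i ((y : ℝ) ^ V) n ∧ ∃ z : ℕ, y ≤ z ∧ (z : ℝ) ≤ (x : ℝ) ^ c ∧
        (primeWitnesses z n : ℝ) < (Nat.primeCounting z : ℝ) / 2 - (z : ℝ) ^ (1 / 2 + δ)) : ℝ) ≤ 1 / (y : ℝ) ^ A * (x : ℝ) ^ m) ∧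
    (∀ A V : ℕ, ∃ x₀ : ℕ, ∀ (β : L → ℝ) (x : ℕ), x₀ ≤ x →
      (vectors m x (fun i => ∃ n : ℕ, TwoPrimes e w β μ i (Real.log x ^ V) n ∧
        ¬ ∃ b : ℕ, b.Prime ∧ (b : ℝ) ≤ Real.log x ∧ IsWitness n b) : ℝ) ≤ 1 / Real.log x ^ A * (x : ℝ) ^ m) := by
  classical
  have hs : Setting e w μ := ⟨he, hw, hdiff⟩
  have h1 : ∀ δ : ℝ, 0 < δ → ∀ A V : ℕ, ∃ c : ℝ, 0 < c ∧ ∃ y₀ : ℕ, ∀ (β : L → ℝ) (x y : ℕ), y₀ ≤ y →
      (vectors m x (fun i => ∃ n : ℕ, TwoPrimes e w β μ i ((y : ℝ) ^ V) n ∧ ∃ z : ℕ, y ≤ z ∧ (z : ℝ) ≤ (x : ℝ) ^ c ∧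
        (primeWitnesses z n : ℝ) < (Nat.primeCounting z : ℝ) / 2 - (z : ℝ) ^ (1 / 2 + δ)) : ℝ) ≤ 1 / (y : ℝ) ^ A * (x : ℝ) ^ m := by
    intro δ hδ A V
    obtain ⟨c, hc, y₀, H⟩ := wit_near hs hδ A V
    refine ⟨c, hc, y₀, fun β x y hy => le_trans (Nat.cast_le.2 ?_) (H β x y hy)⟩
    unfold vectors
    apply card_le_card
    intro i hi
    rw [mem_filter] at hi ⊢
    obtain ⟨hi0, n, ⟨p, q, hp, hq, hp2, hq2, hpq, hpn, hqn, hl, hl'⟩, z, hyz, hzx, hlt⟩ := hi
    rw [primeWitnesses_eq, ← count_eq] at hlt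
    exact ⟨hi0, p, q, n, z, hp, hq, hp2, hq2, hpq, hl, hl', hpn, hqn, hyz, hzx, hlt⟩
  refine ⟨h1, fun A V => ?_⟩
  obtain ⟨c, hc, y₀, H⟩ := h1 (1 / 10) (by norm_num) (2 * A) (2 * V)
  obtain ⟨z₁, hz₁⟩ := eventually_atTop.1 many_primes
  have hlog : Tendsto (fun x : ℕ => Real.log x) atTop atTop := Real.tendsto_log_atTop.comp tendsto_natCast_atTop_atTop
  have hevA : ∀ᶠ x : ℕ in atTop, ((y₀ + z₁ + 3 : ℕ) : ℝ) ≤ Real.log x := hlog.eventually (eventually_ge_atTop _)
  have hevB : ∀ᶠ x : ℕ in atTop, Real.log x ≤ (x : ℝ) ^ c := by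
    have h2 : ∀ᶠ x : ℝ in atTop, Real.log x ≤ x ^ c := by
      have h3 := (isLittleO_log_rpow_atTop hc).bound (by norm_num : (0 : ℝ) < 1)
      filter_upwards [h3, eventually_gt_atTop 1] with x hx hx1
      rw [Real.norm_of_nonneg (Real.log_nonneg hx1.le), Real.norm_of_nonneg (by positivity), one_mul] at hx
      exact hx
    exact tendsto_natCast_atTop_atTop.eventually h2
  obtain ⟨xA, hA⟩ := eventually_atTop.1 hevA
  obtain ⟨xB, hB⟩ := eventually_atTop.1 hevB
  refine ⟨xA + xB, fun β x hx => ?_⟩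
  have hA' := hA x (by omega)
  have hB' := hB x (by omega)
  obtain ⟨y, hy⟩ : ∃ y : ℕ, y = ⌊Real.log x⌋₊ := ⟨_, rfl⟩
  have hlx0 : 0 ≤ Real.log x := le_trans (Nat.cast_nonneg _) hA'
  have hyl : (y : ℝ) ≤ Real.log x := by rw [hy]; exact Nat.floor_le hlx0
  have hyu : Real.log x ≤ y + 1 := by rw [hy]; exact (Nat.lt_floor_add_one _).le
  have hy' : y₀ + z₁ + 3 ≤ y := by rw [hy]; exact Nat.le_floor hA'
  have hy3 : (3 : ℝ) ≤ y := by exact_mod_cast (by omega : 3 ≤ y)
  have hyy : Real.log x ≤ (y : ℝ) ^ 2 := by nlinarith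
  refine le_trans (Nat.cast_le.2 (vectors_mono ?_)) ((H β x y (by omega)).trans ?_)
  · rintro i ⟨n, ⟨p, q, hp, hq, hp2, hq2, hpq, hpn, hqn, ⟨l, hl⟩, ⟨l', hl'⟩⟩, hno⟩
    have hwin : Real.log x ^ V ≤ (y : ℝ) ^ (2 * V) := by
      rw [pow_mul]
      exact pow_le_pow_left₀ hlx0 hyy V
    refine ⟨n, ⟨p, q, hp, hq, hp2, hq2, hpq, hpn, hqn, ⟨l, hl.trans hwin⟩, ⟨l', hl'.trans hwin⟩⟩, y, le_rfl, hyl.trans hB', ?_⟩
    have h2 := hz₁ y (by omega)
    have h3 : primeWitnesses y n = 0 := by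
      unfold primeWitnesses
      rw [card_eq_zero, filter_eq_empty_iff]
      rintro b hb ⟨hb1, hb2⟩
      rw [mem_Icc] at hb
      exact hno ⟨b, hb1, le_trans (by exact_mod_cast hb.2) hyl, hb2⟩
    rw [h3]
    push_cast
    linarith
  · apply mul_le_mul_of_nonneg_right _ (by positivity)
    have hlx : 0 < Real.log x := by
      have : (0 : ℝ) < ((y₀ + z₁ + 3 : ℕ) : ℝ) := by positivity
      linarith
    apply one_div_le_one_div_of_le (by positivity)
    rw [pow_mul]
    exact pow_le_pow_left₀ hlx0 hyy A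

end Pool.Agent.Results.MP_0b15c0_nt.NearPowers
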