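import Pool.Agent.Q75.SW.Poly

set_option autoImplicit false

/-!
# Numbers without a small witness for the strong test: all prime factors of polylogarithmic size

Let no `b` with `1 < b ≤ y` be a witness for `n`, and let `C` be any (large) constant.  Then `n` has
at most `K(C)` prime factors `p ≤ y ^ C`, for each of them `(p - 1) / gcd (p - 1, n - 1) ≤ K(C)`, and
the part of `n` composed of primes `≤ y ^ C` is squarefree and at most `y ^ K(C)`.  If `C < 4 √e`, then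
`p - 1` divides `n - 1` (Korselt's condition) for all prime factors `p ≤ y ^ C`.

For the range of the question, and more generally for `2 (log n) ^ A` with any `A > 0`, it follows
that every large `n` whose `(log n) ^ C`-smooth part exceeds `(log n) ^ K(A, C)` has a witness
`1 < b ≤ 2 (log n) ^ A`.

Proof.  The prime factors `p` of `n` fall into two classes such that `(s / p)` depends only on `s` and
the class, for all `s` composed of primes `≤ y`.  If one class has `k` prime factors `≤ Z`, then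
`k² Ψ ≤ ∑_{s < x} (∑_p (s / p))² ≤ k x + k² Z²`, where `Ψ` is the number of these `s` below `x`; for
`x = y ^ (3C)` and `Z = y ^ C` they have a positive proportion.  The same smooth numbers are elements
of the group of the solutions of `z ^ (n - 1) = 1` modulo `p`, and modulo `p²`.
-/

namespace Pool.Agent.Results.MP_0b15c0_nt.PolylogFactors

open Pool.Agent.Q75.SW

open Pool.Agent.H379R2.W (Passes)

/-- `n` fails the strong test for the base `b`: writing `n - 1 = 2 ^ j * d` with `d` odd, neither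
`b ^ d = 1` nor `b ^ (2 ^ i * d) = -1` for some `i < j`, modulo `n`. -/
def IsWitness (n b : ℕ) : Prop :=
  ∀ j d : ℕ, n - 1 = 2 ^ j * d → Odd d →
    (b : ZMod n) ^ d ≠ 1 ∧ ∀ i : ℕ, i < j → (b : ZMod n) ^ (2 ^ i * d) ≠ -1

/-- no `b` with `1 < b ≤ y` is a witness for `n` -/
def NoWitness (n y : ℕ) : Prop := ∀ b : ℕ, 1 < b → b ≤ y → ¬ IsWitness n b

theorem passes_of {n y : ℕ} (h : NoWitness n y) : ∀ b : ℕ, 1 < b → b ≤ y → Passes n b := by
  intro b hb1 hb2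
  have h1 := h b hb1 hb2
  unfold IsWitness at h1
  push Not at h1
  obtain ⟨j, d, hjd, hd, h2⟩ := h1
  refine ⟨j, d, hjd, hd, ?_⟩
  by_cases h3 : (b : ZMod n) ^ d = 1
  · exact Or.inl h3
  · obtain ⟨i, hi, h4⟩ := h2 h3
    exact Or.inr ⟨i, hi, h4⟩

/-- the number of the prime factors of `n` which are at most `t` -/
noncomputable def smallPrimeFactors (n : ℕ) (t : ℝ) : ℕ :=
  {p : ℕ | p ∈ n.primeFactors ∧ (p : ℝ) ≤ t}.ncard

theorem spf_eq (n : ℕ) (t : ℝ) :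
    smallPrimeFactors n t = (n.primeFactors.filter (fun p : ℕ => (p : ℝ) ≤ t)).card := by
  unfold smallPrimeFactors
  rw [← Set.ncard_coe_finset]
  congr 1
  ext p
  simp

theorem log_large (A : ℝ) (hA : 0 < A) (M : ℝ) : ∃ n₀ : ℕ, ∀ n : ℕ, n₀ ≤ n →
    M ≤ (Real.log n) ^ A := by
  have h1 : Filter.Tendsto (fun n : ℕ => (Real.log n) ^ A) Filter.atTop Filter.atTop :=
    (tendsto_rpow_atTop hA).comp (Real.tendsto_log_atTop.comp tendsto_natCast_atTop_atTop)
  obtain ⟨n0, hn0⟩ := Filter.eventually_atTop.1 (h1.eventually_ge_atTop M)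
  exact ⟨n0, hn0⟩

/-- from `y` to `2 (log n) ^ A` -/
theorem range_floor (A : ℝ) (hA : 0 < A) (y₀ : ℕ) : ∃ n₀ : ℕ, ∀ n : ℕ, n₀ ≤ n →
    2 ≤ Real.log n ∧ y₀ ≤ ⌊2 * (Real.log n) ^ A⌋₊ ∧
      (Real.log n) ^ A ≤ (⌊2 * (Real.log n) ^ A⌋₊ : ℕ) := by
  obtain ⟨n1, hn1⟩ := log_large A hA (y₀ + 1)
  obtain ⟨n2, hn2⟩ := log_large 1 one_pos 2
  refine ⟨max n1 n2, fun n hn => ?_⟩
  have h1 := hn1 n ((le_max_left _ _).trans hn)
  have h2 := hn2 n ((le_max_right _ _).trans hn)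
  rw [Real.rpow_one] at h2
  have h0 : (0 : ℝ) ≤ y₀ := by positivity
  refine ⟨h2, Nat.le_floor (by linarith), ?_⟩
  have h3 := Nat.lt_floor_add_one (2 * (Real.log n) ^ A)
  linarith

theorem witness_of {n : ℕ} {t : ℝ} (ht : 0 ≤ t) (h : ¬ NoWitness n ⌊t⌋₊) :
    ∃ b : ℕ, 1 < b ∧ (b : ℝ) ≤ t ∧ IsWitness n b := by
  unfold NoWitness at h
  push Not at h
  obtain ⟨b, h1, h2, h3⟩ := h
  exact ⟨b, h1, (Nat.le_floor_iff ht).1 h2, h3⟩

theorem many (C : ℝ) : ∃ K : ℕ, ∀ y n : ℕ, 1 ≤ y → NoWitness n y →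
    smallPrimeFactors n ((y : ℝ) ^ C) ≤ K ∧
      ∀ p ∈ n.primeFactors, (p : ℝ) ≤ (y : ℝ) ^ C → p - 1 ≤ K * Nat.gcd (p - 1) (n - 1) := by
  obtain ⟨K1, h1⟩ := bounded C
  obtain ⟨K2, h2⟩ := index C
  refine ⟨max K1 K2, fun y n hy hn => ⟨?_, fun p hp hpy => ?_⟩⟩
  · rw [spf_eq]
    exact (h1 y n hy (passes_of hn)).trans (le_max_left _ _)
  · exact (h2 y n hy (passes_of hn) p hp hpy).trans (Nat.mul_le_mul_right _ (le_max_right _ _))

/-- the smooth part -/
theorem smoothPart (C : ℝ) : ∃ K y₀ : ℕ, ∀ y n : ℕ, y₀ ≤ y → n ≠ 0 → NoWitness n y →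
    ∀ m : ℕ, m ∣ n → (∀ p : ℕ, p.Prime → p ∣ m → (p : ℝ) ≤ (y : ℝ) ^ C) →
      Squarefree m ∧ m ≤ y ^ K := by
  obtain ⟨K, hK⟩ := bounded C
  obtain ⟨y0, hy0⟩ := sqfree C
  obtain ⟨R, hR⟩ := exists_nat_ge C
  refine ⟨R * K, max y0 1, fun y n hy hn0 hno m hmn hm => ?_⟩
  have hpass := passes_of hno
  have hy1 : 1 ≤ y := (le_max_right _ _).trans hy
  have hy2 : y0 ≤ y := (le_max_left _ _).trans hy
  have hm0 : m ≠ 0 := ne_zero_of_dvd_ne_zero hn0 hmn
  have hsq : Squarefree m := by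
    rw [Nat.squarefree_iff_prime_squarefree]
    intro p hp hpm
    refine hy0 y n hy2 hn0 hpass p hp (hm p hp ((dvd_mul_left p p).trans hpm)) ?_
    rw [pow_two]
    exact hpm.trans hmn
  refine ⟨hsq, ?_⟩
  have h1 : ∏ p ∈ m.primeFactors, p = m := Nat.prod_primeFactors_of_squarefree hsq
  have h2 : m.primeFactors.card ≤ K := by
    refine le_trans (Finset.card_le_card ?_) (hK y n hy1 hpass)
    intro p hp
    rw [Finset.mem_filter]
    exact ⟨Nat.primeFactors_mono hmn hn0 hp,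
      hm p (Nat.prime_of_mem_primeFactors hp) (Nat.dvd_of_mem_primeFactors hp)⟩
  have h3 : ∀ p ∈ m.primeFactors, p ≤ y ^ R := by
    intro p hp
    have h4 := hm p (Nat.prime_of_mem_primeFactors hp) (Nat.dvd_of_mem_primeFactors hp)
    have h5 : (y : ℝ) ^ C ≤ (y : ℝ) ^ (R : ℝ) :=
      Real.rpow_le_rpow_of_exponent_le (by exact_mod_cast hy1) hR
    rw [Real.rpow_natCast] at h5
    exact_mod_cast h4.trans h5
  calc m = ∏ p ∈ m.primeFactors, p := h1.symm
    _ ≤ (y ^ R) ^ m.primeFactors.card := Finset.prod_le_pow_card _ _ _ h3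
    _ ≤ (y ^ R) ^ K := Nat.pow_le_pow_right (Nat.pow_pos hy1) h2
    _ = y ^ (R * K) := by rw [pow_mul]

/-- (1) For every `C` there is `K` such that for all `y ≥ 1` and all `n` without a witness
`1 < b ≤ y`: at most `K` prime factors of `n` are `≤ y ^ C`, and
`(p - 1) / gcd (p - 1, n - 1) ≤ K` for each of these prime factors `p`.

(2) For every `C` there is `K` such that for all large `y` and all `n ≥ 1` without a witness
`1 < b ≤ y`: every divisor of `n` composed of primes `≤ y ^ C` is squarefree and at most `y ^ K`.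

(3) Let `θ < 4 √e = 6.594`. For all large `y` and all `n` without a witness `1 < b ≤ y`: `p - 1`
divides `n - 1` for all prime factors `p ≤ y ^ θ` of `n`.

(4) Let `A > 0` (`A = 2` is the range of the question). For every `C` there are `K` and `n₀` such that
every `n ≥ n₀` has a witness `1 < b ≤ 2 (log n) ^ A` in each of the following cases: more than `K`
prime factors of `n` are `≤ (log n) ^ C`; `n` has a divisor `m > (log n) ^ K` composed of primes
`≤ (log n) ^ C`; `n` has a prime factor `p ≤ (log n) ^ C` with `p² ∣ n`, or with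
`(p - 1) / gcd (p - 1, n - 1) > K`, or, if `C < 4 A √e` (for `A = 2`: `C ≤ 13.18`), with
`(p - 1) ∤ (n - 1)`. -/
theorem result :
    (∀ C : ℝ, ∃ K : ℕ, ∀ y n : ℕ, 1 ≤ y → NoWitness n y →
      smallPrimeFactors n ((y : ℝ) ^ C) ≤ K ∧
        ∀ p ∈ n.primeFactors, (p : ℝ) ≤ (y : ℝ) ^ C → p - 1 ≤ K * Nat.gcd (p - 1) (n - 1)) ∧
    (∀ C : ℝ, ∃ K y₀ : ℕ, ∀ y n : ℕ, y₀ ≤ y → n ≠ 0 → NoWitness n y →
      ∀ m : ℕ, m ∣ n → (∀ p : ℕ, p.Prime → p ∣ m → (p : ℝ) ≤ (y : ℝ) ^ C) →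
        Squarefree m ∧ m ≤ y ^ K) ∧
    (∀ θ : ℝ, θ < 4 * Real.exp (1 / 2) → ∃ y₀ : ℕ, ∀ y n : ℕ, y₀ ≤ y → NoWitness n y →
      ∀ p ∈ n.primeFactors, (p : ℝ) ≤ (y : ℝ) ^ θ → p - 1 ∣ n - 1) ∧
    (∀ A : ℝ, 0 < A → ∀ C : ℝ, ∃ K n₀ : ℕ, ∀ n : ℕ, n₀ ≤ n →
      (K < smallPrimeFactors n ((Real.log n) ^ C) ∨
        (∃ m : ℕ, m ∣ n ∧ (∀ p : ℕ, p.Prime → p ∣ m → (p : ℝ) ≤ (Real.log n) ^ C) ∧
          (Real.log n) ^ K < m) ∨
        (∃ p ∈ n.primeFactors, (p : ℝ) ≤ (Real.log n) ^ C ∧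
          (p ^ 2 ∣ n ∨ K * Nat.gcd (p - 1) (n - 1) < p - 1 ∨
            (C < 4 * A * Real.exp (1 / 2) ∧ ¬ (p - 1 ∣ n - 1))))) →
      ∃ b : ℕ, 1 < b ∧ (b : ℝ) ≤ 2 * (Real.log n) ^ A ∧ IsWitness n b) := by
  have third : ∀ θ : ℝ, θ < 4 * Real.exp (1 / 2) → ∃ y₀ : ℕ, ∀ y n : ℕ, y₀ ≤ y → NoWitness n y →
      ∀ p ∈ n.primeFactors, (p : ℝ) ≤ (y : ℝ) ^ θ → p - 1 ∣ n - 1 := by
    intro θ hθ
    obtain ⟨y0, hy0⟩ := korselt θ hθ
    exact ⟨y0, fun y n hy hn => hy0 y n hy (passes_of hn)⟩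
  refine ⟨many, smoothPart, third, ?_⟩
  intro A hA C
  obtain ⟨C', hC'⟩ : ∃ C' : ℝ, C' = max C 0 := ⟨_, rfl⟩
  have hC0 : 0 ≤ C' := by rw [hC']; exact le_max_right _ _
  have hCC : C ≤ C' := by rw [hC']; exact le_max_left _ _
  obtain ⟨K1, h1⟩ := many (C' / A)
  obtain ⟨K2, y2, h2⟩ := smoothPart (C' / A)
  obtain ⟨y3, h3⟩ : ∃ y3 : ℕ, C < 4 * A * Real.exp (1 / 2) → ∀ y n : ℕ, y3 ≤ y → NoWitness n y →
      ∀ p ∈ n.primeFactors, (p : ℝ) ≤ (y : ℝ) ^ (C' / A) → p - 1 ∣ n - 1 := by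
    by_cases hc : C < 4 * A * Real.exp (1 / 2)
    · obtain ⟨y3, h3⟩ := third (C' / A) (by
        rw [div_lt_iff₀ hA, hC']
        refine max_lt ?_ (by positivity)
        linarith)
      exact ⟨y3, fun _ => h3⟩
    · exact ⟨0, fun h => absurd h hc⟩
  obtain ⟨R, hR⟩ := exists_nat_ge ((A + 1) * K2)
  obtain ⟨n0, hn0⟩ := range_floor A hA (y2 + y3 + 1)
  refine ⟨max K1 R, max n0 1, fun n hn hcase => ?_⟩
  obtain ⟨g1, g2, g3⟩ := hn0 n ((le_max_left _ _).trans hn)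
  have hn1 : 1 ≤ n := (le_max_right _ _).trans hn
  apply witness_of (by positivity)
  intro hno
  obtain ⟨y, hy⟩ : ∃ y : ℕ, y = ⌊2 * (Real.log n) ^ A⌋₊ := ⟨_, rfl⟩
  rw [← hy] at g2 g3 hno
  have hyu : (y : ℝ) ≤ 2 * (Real.log n) ^ A := by
    rw [hy]; exact Nat.floor_le (by positivity)
  have hle : (Real.log n) ^ C ≤ (y : ℝ) ^ (C' / A) := by
    calc (Real.log n) ^ C ≤ (Real.log n) ^ C' :=
          Real.rpow_le_rpow_of_exponent_le (by linarith) hCC
      _ = ((Real.log n) ^ A) ^ (C' / A) := by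
          rw [← Real.rpow_mul (by linarith)]
          congr 1
          field_simp
      _ ≤ _ := Real.rpow_le_rpow (by positivity) g3 (by positivity)
  obtain ⟨h1a, h1b⟩ := h1 y n (by omega) hno
  rcases hcase with hcase | ⟨m, hmn, hmp, hm⟩ | ⟨p, hp, hpl, hcase⟩
  · have h4 : smallPrimeFactors n ((Real.log n) ^ C) ≤ smallPrimeFactors n ((y : ℝ) ^ (C' / A)) := by
      rw [spf_eq, spf_eq]
      apply Finset.card_le_card
      intro p hp
      rw [Finset.mem_filter] at hp ⊢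
      exact ⟨hp.1, hp.2.trans hle⟩
    have h5 := le_max_left K1 R
    omega
  · obtain ⟨_, h5⟩ := h2 y n (by omega) (by omega) hno m hmn (fun p hp hpm =>
      (hmp p hp hpm).trans hle)
    have h6 : (m : ℝ) ≤ (y : ℝ) ^ K2 := by exact_mod_cast h5
    have h7 : (y : ℝ) ≤ (Real.log n) ^ (A + 1) := by
      rw [Real.rpow_add (by linarith), Real.rpow_one]
      have : 0 ≤ (Real.log n) ^ A := by positivity
      nlinarith
    have h8 : (y : ℝ) ^ K2 ≤ ((Real.log n) ^ (A + 1)) ^ K2 :=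
      pow_le_pow_left₀ (by positivity) h7 _
    rw [← Real.rpow_natCast ((Real.log n) ^ (A + 1)), ← Real.rpow_mul (by linarith)] at h8
    have h9 : (Real.log n) ^ ((A + 1) * K2) ≤ (Real.log n) ^ ((max K1 R : ℕ) : ℝ) := by
      apply Real.rpow_le_rpow_of_exponent_le (by linarith)
      refine hR.trans ?_
      exact_mod_cast le_max_right _ _
    rw [Real.rpow_natCast] at h9
    linarith
  · rcases hcase with hcase | hcase | ⟨hc1, hc2⟩
    · obtain ⟨h5, _⟩ := h2 y n (by omega) (by omega) hno (p ^ 2) hcase (fun q hq hqp => by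
        have h6 := (Nat.prime_dvd_prime_iff_eq hq (Nat.prime_of_mem_primeFactors hp)).1
          (hq.dvd_of_dvd_pow hqp)
        rw [h6]
        exact hpl.trans hle)
      have h7 := (Nat.squarefree_iff_prime_squarefree.1 h5) p (Nat.prime_of_mem_primeFactors hp)
      exact h7 (by rw [pow_two])
    · have h5 := h1b p hp (hpl.trans hle)
      have h6 : K1 * Nat.gcd (p - 1) (n - 1) ≤ max K1 R * Nat.gcd (p - 1) (n - 1) :=
        Nat.mul_le_mul_right _ (le_max_left _ _)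
      omega
    · exact hc2 (h3 hc1 y n (by omega) hno p hp (hpl.trans hle))

end Pool.Agent.Results.MP_0b15c0_nt.PolylogFactors
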