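import Pool.Agent.Q75.SW.Triples
import Pool.Agent.H471R4.BW.Final
import Pool.Agent.H471R4.BW.BFM
import Pool.Agent.H471R4.BW.BGE
import Pool.Agent.H471R4.BW.BIN
import Pool.Agent.H471R4.BW.CS0
import Pool.Agent.H471R4.BW.CS1
import Pool.Agent.H471R4.BW.CS2
import Pool.Agent.H471R4.BW.HOL
import Pool.Agent.H471R4.BW.MOM
import Pool.Agent.H471R4.BW.NU1
import Pool.Agent.H471R4.BW.NU2b
import Pool.Agent.H471R4.BW.SHF
import Pool.Agent.H471R4.BW.SNG
import Pool.Agent.H471R4.BW.TUP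
import Pool.Agent.H471R4.BW.VIN

set_option autoImplicit false

/-!
# Witnesses for the strong test and the prime factors of polylogarithmic size

If no `b ≤ y` is a witness for `n`, then `n` has very few prime factors of size a power of `y`: at
most one is `≤ y ^ 3.29`, at most two are `≤ y ^ 4.23`, at most four are `≤ y ^ 4.60`, and only
boundedly many are `≤ y ^ θ` for every fixed `θ < 2e = 5.436`.  For `y = 2 (log n)²`, the range of
the question, this gives: every large `n` with two prime factors `≤ (log n) ^ 6.59`, or three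
prime factors `≤ (log n) ^ 8.46`, or sufficiently many prime factors `≤ (log n) ^ θ`, `θ < 4e`, has
a witness `1 < b ≤ 2 (log n)²`.

Proof.  Let `p_1, …, p_k ≤ y ^ θ` be prime factors of `n`.  If the exponents of `2` in the numbers
`p_i - 1` are not all equal, all primes `l ≤ y` have `(l / p_i) = 1` for some `i`, which is
impossible for `θ < 4 √e` by Burgess' bound and Vinogradov's trick.  Otherwise
`(l / p_i p_j) = 1` for all `i, j` and `l ≤ y`.  By Burgess' bound for the characters modulo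
`p_i p_j` the primes `y < l ≤ (p_i p_j)^(1/4+η)` with `(l / p_i p_j) = -1` have sum of reciprocals
at least `1/2 - δ`.  Every `l` occurs for at most `⌊k²/4⌋` of the `k (k-1) / 2` pairs.
-/

namespace Pool.Agent.Results.MP_0b15c0_nt.SmallPrimeFactors

open Pool.Agent.H471R4.BW Pool.Agent.Q75.SW

open Pool.Agent.H379R2.W (Passes)

/-- `n` fails the strong test for the base `b`: writing `n - 1 = 2 ^ j * d` with `d` odd, neither
`b ^ d = 1` nor `b ^ (2 ^ i * d) = -1` for some `i < j`, modulo `n`. -/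
def IsWitness (n b : ℕ) : Prop :=
  ∀ j d : ℕ, n - 1 = 2 ^ j * d → Odd d →
    (b : ZMod n) ^ d ≠ 1 ∧ ∀ i : ℕ, i < j → (b : ZMod n) ^ (2 ^ i * d) ≠ -1

/-- no `b` with `1 < b ≤ y` is a witness for `n` -/
def NoWitness (n y : ℕ) : Prop := ∀ b : ℕ, 1 < b → b ≤ y → ¬ IsWitness n b

theorem passes_of {n y : ℕ} (h : NoWitness n y) : ∀ b : ℕ, 1 < b → b ≤ y → Passes n b := by
  intro b hb1 hb2
  have h1 := h b hb1 hb2
  unfold IsWitness at h1
  push Not at h1
  obtain ⟨j, d, hjd, hd, h2⟩ := h1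
  refine ⟨j, d, hjd, hd, ?_⟩
  by_cases h3 : (b : ZMod n) ^ d = 1
  · exact Or.inl h3
  · obtain ⟨i, hi, h4⟩ := h2 h3
    exact Or.inr ⟨i, hi, h4⟩

/-- the number of the prime factors of `n` which are at most `t` -/
noncomputable def smallPrimeFactors (n : ℕ) (t : ℝ) : ℕ :=
  {p : ℕ | p ∈ n.primeFactors ∧ (p : ℝ) ≤ t}.ncard

theorem spf_eq (n : ℕ) (t : ℝ) :
    smallPrimeFactors n t = (n.primeFactors.filter (fun p : ℕ => (p : ℝ) ≤ t)).card := by
  unfold smallPrimeFactors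
  rw [← Set.ncard_coe_finset]
  congr 1
  ext p
  simp

theorem first (m : ℕ) (hm : 1 ≤ m) (θ : ℝ) (hθ : θ < 2 * Real.exp (1 - 1 / (2 * m))) :
    ∃ y₀ : ℕ, ∀ y : ℕ, y₀ ≤ y → ∀ n : ℕ, NoWitness n y →
      smallPrimeFactors n ((y : ℝ) ^ θ) ≤ max 1 (2 * m - 2) := by
  have hbin : BIN := bin (mom tup) nu1 nu2b shf hol
  have hbge : BGE := bge (bfm hbin) vin
  have hs := sng hbge
  by_cases hθ0 : 0 < θ
  · have key : ∃ k : ℕ, 2 ≤ k ∧ k - 1 ≤ max 1 (2 * m - 2) ∧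
        ((1 : ℝ) - 1 / (2 * m)) * (2 * (2 * (k ^ 2 / 4) : ℕ)) = k * (k - 1) := by
      have hm0 : (m : ℝ) ≠ 0 := by exact_mod_cast (by omega : m ≠ 0)
      rcases Nat.lt_or_ge m 2 with h | h
      · have hm1 : m = 1 := by omega
        refine ⟨2, le_rfl, by simp, ?_⟩
        rw [hm1]
        norm_num
      · refine ⟨2 * m - 1, by omega, by omega, ?_⟩
        obtain ⟨u, rfl⟩ : ∃ u, m = u + 1 := ⟨m - 1, by omega⟩
        have h1 : 2 * (u + 1) - 1 = 2 * u + 1 := by omega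
        have h2 : (2 * u + 1) ^ 2 / 4 = u * (u + 1) := by
          have : (2 * u + 1) ^ 2 = 4 * (u * (u + 1)) + 1 := by ring
          omega
        rw [h1, h2]
        push_cast at hm0 ⊢
        field_simp
        ring
    obtain ⟨k, hk2, hkm, hc⟩ := key
    have hm1 : (1 : ℝ) ≤ m := by exact_mod_cast hm
    have hc0 : (0 : ℝ) ≤ 1 - 1 / (2 * m) := by
      rw [sub_nonneg, div_le_one (by linarith)]; linarith
    have hc1 : (1 : ℝ) - 1 / (2 * m) ≤ 1 := by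
      have : (0 : ℝ) ≤ 1 / (2 * m) := by positivity
      linarith
    obtain ⟨y0, hy0⟩ := kfold hbge hs (cs1 cs0) (cs2 cs0) k hk2 _ θ hc hc0 hc1 hθ0 hθ
    refine ⟨y0, fun y hy n hn => ?_⟩
    have := hy0 y hy n (passes_of hn)
    rw [spf_eq]
    omega
  · push Not at hθ0
    refine ⟨1, fun y hy n _ => ?_⟩
    rw [spf_eq]
    have : (n.primeFactors.filter (fun p : ℕ => (p : ℝ) ≤ (y : ℝ) ^ θ)).card = 0 := by
      rw [Finset.card_eq_zero, Finset.filter_eq_empty_iff]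
      intro p hp hle
      have h1 : (y : ℝ) ^ θ ≤ 1 :=
        Real.rpow_le_one_of_one_le_of_nonpos (by exact_mod_cast hy) hθ0
      have h2 := (Nat.prime_of_mem_primeFactors hp).two_le
      have h3 : (2 : ℝ) ≤ p := by exact_mod_cast h2
      linarith
    omega

theorem log_large (A : ℝ) (hA : 0 < A) (M : ℝ) : ∃ n₀ : ℕ, ∀ n : ℕ, n₀ ≤ n →
    M ≤ (Real.log n) ^ A := by
  have h1 : Filter.Tendsto (fun n : ℕ => (Real.log n) ^ A) Filter.atTop Filter.atTop :=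
    (tendsto_rpow_atTop hA).comp (Real.tendsto_log_atTop.comp tendsto_natCast_atTop_atTop)
  obtain ⟨n0, hn0⟩ := Filter.eventually_atTop.1 (h1.eventually_ge_atTop M)
  exact ⟨n0, hn0⟩

/-- from `y` to `2 (log n) ^ A` -/
theorem range_floor (A : ℝ) (hA : 0 < A) (y₀ : ℕ) : ∃ n₀ : ℕ, ∀ n : ℕ, n₀ ≤ n →
    1 ≤ Real.log n ∧ y₀ ≤ ⌊2 * (Real.log n) ^ A⌋₊ ∧
      (Real.log n) ^ A ≤ (⌊2 * (Real.log n) ^ A⌋₊ : ℕ) := by
  obtain ⟨n1, hn1⟩ := log_large A hA (y₀ + 1)
  obtain ⟨n2, hn2⟩ := log_large 1 one_pos 1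
  refine ⟨max n1 n2, fun n hn => ?_⟩
  have h1 := hn1 n ((le_max_left _ _).trans hn)
  have h2 := hn2 n ((le_max_right _ _).trans hn)
  rw [Real.rpow_one] at h2
  have h0 : (0 : ℝ) ≤ y₀ := by positivity
  refine ⟨h2, Nat.le_floor (by linarith), ?_⟩
  have h3 := Nat.lt_floor_add_one (2 * (Real.log n) ^ A)
  linarith

theorem witness_of {n : ℕ} {t : ℝ} (ht : 0 ≤ t) (h : ¬ NoWitness n ⌊t⌋₊) :
    ∃ b : ℕ, 1 < b ∧ (b : ℝ) ≤ t ∧ IsWitness n b := by
  unfold NoWitness at h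
  push Not at h
  obtain ⟨b, h1, h2, h3⟩ := h
  exact ⟨b, h1, (Nat.le_floor_iff ht).1 h2, h3⟩

/-- (1) Let `m ≥ 1` and `θ < 2 e^(1 - 1/(2m))`.  For all large `y` and all `n` without a witness
`1 < b ≤ y`, at most `max 1 (2m - 2)` prime factors of `n` are `≤ y ^ θ`.  (`m = 1`: at most one
prime factor `≤ y ^ θ`, `θ < 2 √e = 3.297`; `m = 2`: at most two, `θ < 2 e^(3/4) = 4.234`; for
`m → ∞` the exponent `2 e^(1 - 1/(2m))` tends to `2 e = 5.436`.)

(2) Let `θ < 4 √e`.  For all large `y` and all `n` without a witness `1 < b ≤ y`, the product of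
any two different prime factors of `n` is larger than `y ^ θ`.

(3) Let `ρ < 16 e^(3/2)`.  For all large `y` and all `n` without a witness `1 < b ≤ y`, any three
prime factors `p < q < r` of `n` satisfy `log (p r) log (q r) > ρ (log y)²`.

(4) Let `A > 0` (`A = 2` is the range of the question).  For all `m ≥ 1` and
`θ < 2 A e^(1 - 1/(2m))`, every large `n` with more than `max 1 (2m - 2)` prime factors
`≤ (log n) ^ θ` has a witness `1 < b ≤ 2 (log n) ^ A`; for all `θ < 4 A √e` every large `n` with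
two different prime factors whose product is at most `(log n) ^ θ` has such a witness. -/
theorem result :
    (∀ m : ℕ, 1 ≤ m → ∀ θ : ℝ, θ < 2 * Real.exp (1 - 1 / (2 * m)) →
      ∃ y₀ : ℕ, ∀ y : ℕ, y₀ ≤ y → ∀ n : ℕ, NoWitness n y →
        smallPrimeFactors n ((y : ℝ) ^ θ) ≤ max 1 (2 * m - 2)) ∧
    (∀ θ : ℝ, θ < 4 * Real.exp (1 / 2) →
      ∃ y₀ : ℕ, ∀ y : ℕ, y₀ ≤ y → ∀ n : ℕ, NoWitness n y →
        ∀ p ∈ n.primeFactors, ∀ q ∈ n.primeFactors, p ≠ q → (y : ℝ) ^ θ < (p * q : ℕ)) ∧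
    (∀ ρ : ℝ, ρ < 16 * Real.exp (3 / 2) →
      ∃ y₀ : ℕ, ∀ y : ℕ, y₀ ≤ y → ∀ n : ℕ, NoWitness n y →
        ∀ p ∈ n.primeFactors, ∀ q ∈ n.primeFactors, ∀ r ∈ n.primeFactors, p < q → q < r →
          ρ * (Real.log y) ^ 2 < Real.log (p * r) * Real.log (q * r)) ∧
    (∀ A : ℝ, 0 < A →
      (∀ m : ℕ, 1 ≤ m → ∀ θ : ℝ, θ < 2 * A * Real.exp (1 - 1 / (2 * m)) →
        ∃ n₀ : ℕ, ∀ n : ℕ, n₀ ≤ n →
          max 1 (2 * m - 2) < smallPrimeFactors n ((Real.log n) ^ θ) →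
            ∃ b : ℕ, 1 < b ∧ (b : ℝ) ≤ 2 * (Real.log n) ^ A ∧ IsWitness n b) ∧
      (∀ θ : ℝ, θ < 4 * A * Real.exp (1 / 2) →
        ∃ n₀ : ℕ, ∀ n : ℕ, n₀ ≤ n → ∀ p ∈ n.primeFactors, ∀ q ∈ n.primeFactors, p ≠ q →
          ((p * q : ℕ) : ℝ) ≤ (Real.log n) ^ θ →
            ∃ b : ℕ, 1 < b ∧ (b : ℝ) ≤ 2 * (Real.log n) ^ A ∧ IsWitness n b)) := by
  have hbin : BIN := bin (mom tup) nu1 nu2b shf hol
  have hbge : BGE := bge (bfm hbin) vin
  have hs := sng hbge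
  have second : ∀ θ : ℝ, θ < 4 * Real.exp (1 / 2) →
      ∃ y₀ : ℕ, ∀ y : ℕ, y₀ ≤ y → ∀ n : ℕ, NoWitness n y →
        ∀ p ∈ n.primeFactors, ∀ q ∈ n.primeFactors, p ≠ q → (y : ℝ) ^ θ < (p * q : ℕ) := by
    intro θ hθ
    obtain ⟨y0, hy0⟩ := pairProd hs (cs1 cs0) (cs2 cs0) θ hθ
    exact ⟨y0, fun y hy n hn => hy0 y hy n (passes_of hn)⟩
  have mono : ∀ (A θ : ℝ) (n : ℕ), 0 < A → 0 ≤ θ → 1 ≤ Real.log n →
      (Real.log n) ^ A ≤ (⌊2 * (Real.log n) ^ A⌋₊ : ℕ) →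
      (Real.log n) ^ θ ≤ ((⌊2 * (Real.log n) ^ A⌋₊ : ℕ) : ℝ) ^ (θ / A) := by
    intro A θ n hA hθ h1 h2
    calc (Real.log n) ^ θ = ((Real.log n) ^ A) ^ (θ / A) := by
          rw [← Real.rpow_mul (by linarith)]
          congr 1
          field_simp
      _ ≤ _ := Real.rpow_le_rpow (by positivity) h2 (by positivity)
  refine ⟨first, second, ?_, ?_⟩
  · intro ρ hρ
    obtain ⟨y0, hy0⟩ := triple (trp hbge) hs (cs1 cs0) (cs2 cs0) ρ hρ
    exact ⟨y0, fun y hy n hn => hy0 y hy n (passes_of hn)⟩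
  · intro A hA
    refine ⟨?_, ?_⟩
    · intro m hm θ hθ
      obtain ⟨θ', hθ'⟩ : ∃ θ' : ℝ, θ' = max θ 0 := ⟨_, rfl⟩
      have h0 : 0 ≤ θ' := by rw [hθ']; exact le_max_right _ _
      have h1 : θ ≤ θ' := by rw [hθ']; exact le_max_left _ _
      have h2 : θ' < 2 * A * Real.exp (1 - 1 / (2 * m)) := by
        rw [hθ']
        exact max_lt hθ (by positivity)
      have h3 : θ' / A < 2 * Real.exp (1 - 1 / (2 * m)) := by
        rw [div_lt_iff₀ hA]; linarith
      obtain ⟨y0, hy0⟩ := first m hm (θ' / A) h3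
      obtain ⟨n0, hn0⟩ := range_floor A hA y0
      refine ⟨n0, fun n hn hcard => ?_⟩
      obtain ⟨g1, g2, g3⟩ := hn0 n hn
      apply witness_of (by positivity)
      intro hno
      have h4 := hy0 _ g2 n hno
      have h5 := mono A θ' n hA h0 g1 g3
      have h6 : (Real.log n) ^ θ ≤ (Real.log n) ^ θ' :=
        Real.rpow_le_rpow_of_exponent_le g1 h1
      have h7 : smallPrimeFactors n ((Real.log n) ^ θ) ≤
          smallPrimeFactors n (((⌊2 * (Real.log n) ^ A⌋₊ : ℕ) : ℝ) ^ (θ' / A)) := by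
        rw [spf_eq, spf_eq]
        apply Finset.card_le_card
        intro p hp
        rw [Finset.mem_filter] at hp ⊢
        exact ⟨hp.1, hp.2.trans (h6.trans h5)⟩
      omega
    · intro θ hθ
      obtain ⟨θ', hθ'⟩ : ∃ θ' : ℝ, θ' = max θ 0 := ⟨_, rfl⟩
      have h0 : 0 ≤ θ' := by rw [hθ']; exact le_max_right _ _
      have h1 : θ ≤ θ' := by rw [hθ']; exact le_max_left _ _
      have h2 : θ' < 4 * A * Real.exp (1 / 2) := by
        rw [hθ']
        exact max_lt hθ (by positivity)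
      have h3 : θ' / A < 4 * Real.exp (1 / 2) := by
        rw [div_lt_iff₀ hA]; linarith
      obtain ⟨y0, hy0⟩ := second (θ' / A) h3
      obtain ⟨n0, hn0⟩ := range_floor A hA y0
      refine ⟨n0, fun n hn p hp q hq hpq hle => ?_⟩
      obtain ⟨g1, g2, g3⟩ := hn0 n hn
      apply witness_of (by positivity)
      intro hno
      have h4 := hy0 _ g2 n hno p hp q hq hpq
      have h5 := mono A θ' n hA h0 g1 g3
      have h6 : (Real.log n) ^ θ ≤ (Real.log n) ^ θ' :=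
        Real.rpow_le_rpow_of_exponent_le g1 h1
      linarith

end Pool.Agent.Results.MP_0b15c0_nt.SmallPrimeFactors
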