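import Pool.Agent.Q75.SW.Expl
import Pool.Agent.Q75.SW.Asy

set_option autoImplicit false

/-!
# Small witnesses for the strong test: smooth numbers

Every large `n` all of whose prime factors are at most `(log n) ^ C`, `C ≥ 1`, has a witness
`1 < b ≤ (log log n) ^ κ`, for every `κ > 1 + 2 C`.  Every large `n` all of whose prime factors are at
most `exp (c (log log n)² / log log log n)`, `c < A / 4`, has a witness `1 < b ≤ 2 (log n) ^ A`; `A = 2`
is the range of the question.  It suffices that `n` has a divisor `m` with these prime factors and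
`log m ≥ (log n) ^ δ`, with exponents depending on `δ`.  All this is unconditional.

Proof.  Let `n` have no witness `≤ y`.  The prime factors `p` of `n` fall into two classes such that
`(s / p)` depends only on `s` and the class, for all `s` composed of primes `≤ y`.  If one class has
`k` prime factors `≤ Z`, then `k² Ψ ≤ ∑_{s ≤ y ^ r} (∑_p (s / p))² ≤ k (y ^ r + 1) + k² Z²`, where `Ψ`
is the number of the products `s` of `r` different primes `≤ y`.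
-/

namespace Pool.Agent.Results.MP_0b15c0_nt.SmoothNumbers

open Pool.Agent.Q75.SW

open Pool.Agent.H379R2.W (Passes)

/-- `n` fails the strong test for the base `b`: writing `n - 1 = 2 ^ j * d` with `d` odd, neither
`b ^ d = 1` nor `b ^ (2 ^ i * d) = -1` for some `i < j`, modulo `n`. -/
def IsWitness (n b : ℕ) : Prop :=
  ∀ j d : ℕ, n - 1 = 2 ^ j * d → Odd d →
    (b : ZMod n) ^ d ≠ 1 ∧ ∀ i : ℕ, i < j → (b : ZMod n) ^ (2 ^ i * d) ≠ -1

theorem passes_of {n : ℕ} {t : ℝ} (ht : 0 ≤ t)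
    (h : ¬ ∃ b : ℕ, 1 < b ∧ (b : ℝ) ≤ t ∧ IsWitness n b) :
    ∀ b : ℕ, 1 < b → b ≤ ⌊t⌋₊ → Passes n b := by
  intro b hb1 hb2
  have h1 : ¬ IsWitness n b := fun hw => h ⟨b, hb1, (Nat.le_floor_iff ht).1 hb2, hw⟩
  unfold IsWitness at h1
  push Not at h1
  obtain ⟨j, d, hjd, hd, h2⟩ := h1
  refine ⟨j, d, hjd, hd, ?_⟩
  by_cases h3 : (b : ZMod n) ^ d = 1
  · exact Or.inl h3
  · obtain ⟨i, hi, h4⟩ := h2 h3
    exact Or.inr ⟨i, hi, h4⟩

/-- eventually in `log log n` -/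
theorem ev_loglog {P : ℝ → Prop} (h : ∀ᶠ M : ℝ in Filter.atTop, P M) :
    ∃ n₀ : ℕ, ∀ n : ℕ, n₀ ≤ n → 0 < Real.log n ∧ 1 ≤ n ∧ P (Real.log (Real.log n)) := by
  have h1 : Filter.Tendsto (fun n : ℕ => Real.log n) Filter.atTop Filter.atTop :=
    Real.tendsto_log_atTop.comp tendsto_natCast_atTop_atTop
  have h2 : Filter.Tendsto (fun n : ℕ => Real.log (Real.log n)) Filter.atTop Filter.atTop :=
    Real.tendsto_log_atTop.comp h1
  exact Filter.eventually_atTop.1 ((h1.eventually_gt_atTop 0).and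
    ((Filter.eventually_ge_atTop 1).and (h2.eventually h)))

theorem log_floor_le {X : ℝ} (hX : 0 ≤ X) : Real.log (⌊Real.exp X⌋₊ : ℕ) ≤ X := by
  have h1 : 1 ≤ ⌊Real.exp X⌋₊ := Nat.le_floor (by
    rw [Nat.cast_one]; exact Real.one_le_exp hX)
  have h2 := Real.log_le_log (by exact_mod_cast h1) (Nat.floor_le (Real.exp_pos X).le)
  rwa [Real.log_exp] at h2

theorem polylog (C δ κ : ℝ) (hC : 0 < C) (hδ : 0 < δ) (hκ2 : 2 < κ) (hκ : 1 + 2 * C / δ < κ) :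
    ∃ n₀ : ℕ, ∀ n : ℕ, n₀ ≤ n → ∀ m : ℕ, m ∣ n →
      (∀ p : ℕ, p.Prime → p ∣ m → (p : ℝ) ≤ (Real.log n) ^ C) →
      (Real.log n) ^ δ ≤ Real.log m →
        ∃ b : ℕ, 1 < b ∧ (b : ℝ) ≤ (Real.log (Real.log n)) ^ κ ∧ IsWitness n b := by
  obtain ⟨A, hA⟩ : ∃ A : ℝ, A = (2 + κ) / 2 := ⟨_, rfl⟩
  have hA2 : 2 < A := by rw [hA]; linarith
  have hAκ : 0 < κ - A := by rw [hA]; linarith
  obtain ⟨D0, hD0⟩ := sq_bound A hA2
  have hev : ∀ᶠ M : ℝ in Filter.atTop, 1 ≤ M ∧ (2 * C) ^ A + 1 ≤ M ^ (κ - A) ∧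
      (D0 : ℝ) + 1 ≤ M ^ κ :=
    (Filter.eventually_ge_atTop 1).and
      (((tendsto_rpow_atTop hAκ).eventually_ge_atTop _).and
        ((tendsto_rpow_atTop (by linarith : (0 : ℝ) < κ)).eventually_ge_atTop _))
  obtain ⟨n0, hn0⟩ := ev_loglog (hev.and (asy1 C δ κ hC hδ hκ))
  refine ⟨n0, fun n hn m hmn hm hlogm => ?_⟩
  obtain ⟨hL, hn1, ⟨hM1, hM2, hM3⟩, r, hr, hasy⟩ := hn0 n hn
  obtain ⟨M, hM⟩ : ∃ M : ℝ, M = Real.log (Real.log n) := ⟨_, rfl⟩
  rw [← hM] at hM1 hM2 hM3 hasy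
  have hM0 : 0 < M := by linarith
  have hpow : ∀ e : ℝ, (Real.log n) ^ e = Real.exp (e * M) := by
    intro e
    rw [Real.rpow_def_of_pos hL, hM, mul_comm]
  rw [hpow] at hlogm
  by_contra hno
  rw [← hM] at hno
  have hpass := passes_of (by positivity) hno
  obtain ⟨y, hy⟩ : ∃ y : ℕ, y = ⌊M ^ κ⌋₊ := ⟨_, rfl⟩
  rw [← hy] at hpass
  have hy1 : M ^ κ - 1 ≤ y := by
    have := Nat.lt_floor_add_one (M ^ κ)
    rw [← hy] at this
    linarith
  have hy2 : (y : ℝ) ≤ M ^ κ := by rw [hy]; exact Nat.floor_le (by positivity)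
  obtain ⟨h1, h2⟩ := hasy y hy1 hy2
  have hDy : D0 ≤ y := by
    have : (D0 : ℝ) ≤ y := by linarith
    exact_mod_cast this
  have hZl : Real.log (⌊Real.exp (C * M)⌋₊ : ℕ) ≤ C * M := log_floor_le (by positivity)
  have hZ : (⌊Real.exp (C * M)⌋₊ : ℝ) ≤ Real.exp (C * M) := Nat.floor_le (by positivity)
  have h3 : 2 * (⌊Real.exp (C * M)⌋₊ : ℝ) ^ 2 ≤ ((y : ℝ) / (4 * r * Real.log y)) ^ r := by
    refine le_trans ?_ h1
    gcongr
  have hsqy : (2 * (C * M)) ^ A ≤ y := by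
    have h4 : (2 * (C * M)) ^ A = (2 * C) ^ A * M ^ A := by
      rw [← mul_assoc, Real.mul_rpow (by positivity) (by positivity)]
    have h5 : M ^ κ = M ^ (κ - A) * M ^ A := by
      rw [← Real.rpow_add hM0]; congr 1; ring
    have h6 : 1 ≤ M ^ A := Real.one_le_rpow hM1 (by linarith)
    have h7 : ((2 * C) ^ A + 1) * M ^ A ≤ M ^ (κ - A) * M ^ A := by gcongr
    rw [h4]
    rw [h5] at hy1
    linarith
  have hsq : ∀ p : ℕ, p.Prime → p ≤ ⌊Real.exp (C * M)⌋₊ → ¬ p ^ 2 ∣ n := by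
    intro p hp hpZ
    refine hD0 n y p (by omega) hDy hp (le_trans ?_ hsqy) hpass
    have h4 : Real.log p ≤ C * M := by
      refine le_trans (Real.log_le_log (by exact_mod_cast hp.pos) ?_) hZl
      exact_mod_cast hpZ
    have h5 : 0 ≤ Real.log p := Real.log_natCast_nonneg p
    exact Real.rpow_le_rpow (by positivity) (by linarith) (by linarith)
  obtain ⟨_, h4⟩ := smooth_part hr (by omega) hpass h3 hsq hmn (fun p hp hpm => by
    apply Nat.le_floor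
    have := hm p hp hpm
    rwa [hpow] at this) (C * M) (by positivity) hZl
  linarith

theorem superpolylog (A δ c : ℝ) (hA : 0 < A) (hδ : 0 < δ) (hc : 0 < c) (hcA : c < A * δ / 4) :
    ∃ n₀ : ℕ, ∀ n : ℕ, n₀ ≤ n → ∀ m : ℕ, m ∣ n →
      (∀ p : ℕ, p.Prime → p ∣ m → (p : ℝ) ≤
        Real.exp (c * ((Real.log (Real.log n)) ^ 2 / Real.log (Real.log (Real.log n))))) →
      (Real.log n) ^ δ ≤ Real.log m →
        ∃ b : ℕ, 1 < b ∧ (b : ℝ) ≤ 2 * (Real.log n) ^ A ∧ IsWitness n b := by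
  obtain ⟨D0, hD0⟩ := sq_bound 3 (by norm_num)
  have hev : ∀ᶠ M : ℝ in Filter.atTop, 1 ≤ M ∧ 1 ≤ Real.log M ∧
      5040 * (8 * c ^ 3) / A ^ 7 ≤ M ∧ (D0 : ℝ) / A ≤ M :=
    (Filter.eventually_ge_atTop 1).and ((ev_log_ge 1).and
      ((Filter.eventually_ge_atTop _).and (Filter.eventually_ge_atTop _)))
  obtain ⟨n0, hn0⟩ := ev_loglog (hev.and (asy2 A δ c hA hδ hc hcA))
  refine ⟨n0, fun n hn m hmn hm hlogm => ?_⟩
  obtain ⟨hL, hn1, ⟨hM1, hM2, hM3, hM4⟩, r, hr, hasy⟩ := hn0 n hn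
  obtain ⟨M, hM⟩ : ∃ M : ℝ, M = Real.log (Real.log n) := ⟨_, rfl⟩
  rw [← hM] at hM1 hM2 hM3 hM4 hasy hm
  have hM0 : 0 < M := by linarith
  have hpow : ∀ e : ℝ, (Real.log n) ^ e = Real.exp (e * M) := by
    intro e
    rw [Real.rpow_def_of_pos hL, hM, mul_comm]
  rw [hpow] at hlogm
  by_contra hno
  rw [hpow] at hno
  have hpass := passes_of (by positivity) hno
  obtain ⟨y, hy⟩ : ∃ y : ℕ, y = ⌊2 * Real.exp (A * M)⌋₊ := ⟨_, rfl⟩
  rw [← hy] at hpass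
  have he1 : 1 ≤ Real.exp (A * M) := Real.one_le_exp (by positivity)
  have hy1 : Real.exp (A * M) ≤ y := by
    have := Nat.lt_floor_add_one (2 * Real.exp (A * M))
    rw [← hy] at this
    linarith
  have hy2 : (y : ℝ) ≤ 2 * Real.exp (A * M) := by rw [hy]; exact Nat.floor_le (by positivity)
  obtain ⟨h1, h2⟩ := hasy y hy1 hy2
  have hDy : D0 ≤ y := by
    have h5 : (D0 : ℝ) ≤ A * M := by rw [div_le_iff₀ hA] at hM4; linarith
    have h6 : A * M ≤ Real.exp (A * M) := by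
      have := Real.add_one_le_exp (A * M)
      linarith
    have : (D0 : ℝ) ≤ y := by linarith
    exact_mod_cast this
  obtain ⟨X, hX⟩ : ∃ X : ℝ, X = c * (M ^ 2 / Real.log M) := ⟨_, rfl⟩
  rw [← hX] at h1 h2 hm
  have hX0 : 0 ≤ X := by rw [hX]; positivity
  have hXM : X ≤ c * M ^ 2 := by
    rw [hX]
    have : M ^ 2 / Real.log M ≤ M ^ 2 := div_le_self (by positivity) hM2
    gcongr
  have hZl : Real.log (⌊Real.exp X⌋₊ : ℕ) ≤ X := log_floor_le hX0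
  have hZ : (⌊Real.exp X⌋₊ : ℝ) ≤ Real.exp X := Nat.floor_le (by positivity)
  have h3 : 2 * (⌊Real.exp X⌋₊ : ℝ) ^ 2 ≤ ((y : ℝ) / (4 * r * Real.log y)) ^ r := by
    refine le_trans ?_ h1
    gcongr
  have hsqy : (2 * X) ^ (3 : ℝ) ≤ y := by
    have h4 : (2 * X) ^ (3 : ℝ) = (2 * X) ^ 3 := by
      rw [← Real.rpow_natCast]; norm_num
    rw [h4]
    have h5 : (2 * X) ^ 3 ≤ (2 * (c * M ^ 2)) ^ 3 := by gcongr
    have h6 := Real.pow_div_factorial_le_exp (A * M) (by positivity) 7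
    rw [div_le_iff₀ (by positivity)] at hM3
    have h7 : ((Nat.factorial 7 : ℕ) : ℝ) = 5040 := by norm_num [Nat.factorial]
    rw [h7, div_le_iff₀ (by norm_num)] at h6
    have h8 : 5040 * (8 * c ^ 3) * M ^ 6 ≤ M * A ^ 7 * M ^ 6 := by gcongr
    have h9 : M * A ^ 7 * M ^ 6 = (A * M) ^ 7 := by ring
    have h10 : (2 * (c * M ^ 2)) ^ 3 = 8 * c ^ 3 * M ^ 6 := by ring
    rw [h10] at h5
    linarith
  have hsq : ∀ p : ℕ, p.Prime → p ≤ ⌊Real.exp X⌋₊ → ¬ p ^ 2 ∣ n := by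
    intro p hp hpZ
    refine hD0 n y p (by omega) hDy hp (le_trans ?_ hsqy) hpass
    have h4 : Real.log p ≤ X := by
      refine le_trans (Real.log_le_log (by exact_mod_cast hp.pos) ?_) hZl
      exact_mod_cast hpZ
    have h5 : 0 ≤ Real.log p := Real.log_natCast_nonneg p
    exact Real.rpow_le_rpow (by positivity) (by linarith) (by linarith)
  obtain ⟨_, h4⟩ := smooth_part hr (by omega) hpass h3 hsq hmn (fun p hp hpm => by
    apply Nat.le_floor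
    exact hm p hp hpm) X hX0 hZl
  linarith

/-- (1) Let `C ≥ 1` and `κ > 1 + 2 C`. Every large `n` all of whose prime factors are at most
`(log n) ^ C` has a witness `1 < b ≤ (log log n) ^ κ`.

(2) Let `A > 0` (`A = 2` is the range of the question) and `0 < c < A / 4`. Every large `n` all of
whose prime factors are at most `exp (c (log log n)² / log log log n)` has a witness
`1 < b ≤ 2 (log n) ^ A`.

(3) More generally let `C > 0`, `δ > 0`, `κ > 2` and `κ > 1 + 2 C / δ`. Every large `n` that has a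
divisor `m` with `log m ≥ (log n) ^ δ` all of whose prime factors are at most `(log n) ^ C` has a
witness `1 < b ≤ (log log n) ^ κ`.

(4) More generally let `A > 0`, `δ > 0` and `0 < c < A δ / 4`. Every large `n` that has a divisor `m`
with `log m ≥ (log n) ^ δ` all of whose prime factors are at most
`exp (c (log log n)² / log log log n)` has a witness `1 < b ≤ 2 (log n) ^ A`.

(5) An explicit bound: if `r ≥ 1` and `2 Z² ≤ (y / (4 r log y)) ^ r`, and no `b` with `1 < b ≤ y` is a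
witness for `n`, then at most `8 (4 r log y) ^ r` prime factors of `n` are `≤ Z`. -/
theorem result :
    (∀ C κ : ℝ, 1 ≤ C → 1 + 2 * C < κ → ∃ n₀ : ℕ, ∀ n : ℕ, n₀ ≤ n →
      (∀ p ∈ n.primeFactors, (p : ℝ) ≤ (Real.log n) ^ C) →
        ∃ b : ℕ, 1 < b ∧ (b : ℝ) ≤ (Real.log (Real.log n)) ^ κ ∧ IsWitness n b) ∧
    (∀ A c : ℝ, 0 < A → 0 < c → c < A / 4 → ∃ n₀ : ℕ, ∀ n : ℕ, n₀ ≤ n →
      (∀ p ∈ n.primeFactors, (p : ℝ) ≤
        Real.exp (c * ((Real.log (Real.log n)) ^ 2 / Real.log (Real.log (Real.log n))))) →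
        ∃ b : ℕ, 1 < b ∧ (b : ℝ) ≤ 2 * (Real.log n) ^ A ∧ IsWitness n b) ∧
    (∀ C δ κ : ℝ, 0 < C → 0 < δ → 2 < κ → 1 + 2 * C / δ < κ → ∃ n₀ : ℕ, ∀ n : ℕ, n₀ ≤ n →
      ∀ m : ℕ, m ∣ n → (∀ p : ℕ, p.Prime → p ∣ m → (p : ℝ) ≤ (Real.log n) ^ C) →
      (Real.log n) ^ δ ≤ Real.log m →
        ∃ b : ℕ, 1 < b ∧ (b : ℝ) ≤ (Real.log (Real.log n)) ^ κ ∧ IsWitness n b) ∧
    (∀ A δ c : ℝ, 0 < A → 0 < δ → 0 < c → c < A * δ / 4 → ∃ n₀ : ℕ, ∀ n : ℕ, n₀ ≤ n →
      ∀ m : ℕ, m ∣ n → (∀ p : ℕ, p.Prime → p ∣ m → (p : ℝ) ≤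
        Real.exp (c * ((Real.log (Real.log n)) ^ 2 / Real.log (Real.log (Real.log n))))) →
      (Real.log n) ^ δ ≤ Real.log m →
        ∃ b : ℕ, 1 < b ∧ (b : ℝ) ≤ 2 * (Real.log n) ^ A ∧ IsWitness n b) ∧
    (∀ n y r Z : ℕ, 1 ≤ r → (∀ b : ℕ, 1 < b → b ≤ y → ¬ IsWitness n b) →
      2 * (Z : ℝ) ^ 2 ≤ ((y : ℝ) / (4 * r * Real.log y)) ^ r →
        ((n.primeFactors.filter (fun p => p ≤ Z)).card : ℝ) ≤ 8 * (4 * r * Real.log y) ^ r) := by
  refine ⟨?_, ?_, polylog, superpolylog, ?_⟩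
  · intro C κ hC hκ
    obtain ⟨n0, hn0⟩ := polylog C 1 κ (by linarith) one_pos (by linarith) (by
      rw [div_one]; exact hκ)
    refine ⟨max n0 1, fun n hn hp => hn0 n ((le_max_left _ _).trans hn) n dvd_rfl ?_ ?_⟩
    · intro p hpp hpn
      have : 1 ≤ n := (le_max_right _ _).trans hn
      exact hp p (Nat.mem_primeFactors.2 ⟨hpp, hpn, by omega⟩)
    · rw [Real.rpow_one]
  · intro A c hA hc hcA
    obtain ⟨n0, hn0⟩ := superpolylog A 1 c hA one_pos hc (by rw [mul_one]; exact hcA)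
    refine ⟨max n0 1, fun n hn hp => hn0 n ((le_max_left _ _).trans hn) n dvd_rfl ?_ ?_⟩
    · intro p hpp hpn
      have : 1 ≤ n := (le_max_right _ _).trans hn
      exact hp p (Nat.mem_primeFactors.2 ⟨hpp, hpn, by omega⟩)
    · rw [Real.rpow_one]
  · intro n y r Z hr hno h
    refine explicit hr (fun b hb1 hb2 => ?_) h
    refine passes_of (n := n) (t := y) (by positivity) ?_ b hb1 (by rwa [Nat.floor_natCast])
    rintro ⟨b', g1, g2, g3⟩
    exact hno b' g1 (by exact_mod_cast g2) g3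

end Pool.Agent.Results.MP_0b15c0_nt.SmoothNumbers
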